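import Pool.Agent.W455.EM.Stm

set_option autoImplicit false

namespace Pool.Agent.W738.EM.S2

open Finset Pool.Agent.W455.EM

theorem ch_eq {V : Type} (w : V → ℝ) {j : ℕ} (x y : Fin j → V) (A : Finset (Fin j)) (i : Fin j) :
    w (if i ∈ A then y i else x i) = ch (fun i => w (x i)) (fun i => w (y i)) A i := by
  unfold ch
  split_ifs <;> rfl

theorem t_S2 (hR : S_RED) (hI : S_INN) : S_S2 := by
  intro V _ _ w j T hw hs hT
  have hN : (0 : ℝ) < (Fintype.card V : ℝ) := by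
    exact_mod_cast Fintype.card_pos
  set μ : ℝ := (∑ v, w v) / (Fintype.card V : ℝ) with hμd
  have hμ : ∑ v, w v = μ * (Fintype.card V : ℝ) := by
    rw [hμd]; field_simp
  have hμ1 : μ ≤ 1 := by
    rw [hμd, div_le_one hN]; exact hs
  obtain ⟨x, y, q, hL, hle⟩ := hR V w μ hμ j (fun t => if ∑ i, w (t i) < T then (1 : ℝ) else 0)
  have h2 := hI j (fun i => w (x i)) (fun i => w (y i)) q μ T hμ1 hT (fun i => hw _) hL
  simp only [ch_eq] at hle
  calc (Fintype.card V : ℝ) ^ j * (1 - 1 / T) ^ j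
      ≤ (Fintype.card V : ℝ) ^ j * ∑ A : Finset (Fin j), BW q A *
          (if ∑ i, ch (fun i => w (x i)) (fun i => w (y i)) A i < T then 1 else 0) :=
        mul_le_mul_of_nonneg_left h2 (by positivity)
    _ = (∑ A : Finset (Fin j), BW q A *
          (if ∑ i, ch (fun i => w (x i)) (fun i => w (y i)) A i < T then 1 else 0)) *
          (Fintype.card V : ℝ) ^ j := mul_comm _ _
    _ ≤ NN w j T := hle

theorem count_all {V : Type} [Fintype V] (j : ℕ) (p : V → Prop) [DecidablePred p] :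
    ∑ t : Fin j → V, (if ∀ i, p (t i) then (1 : ℝ) else 0) =
      (((univ : Finset V).filter p).card : ℝ) ^ j := by
  classical
  rw [Finset.sum_boole]
  have : ((univ : Finset (Fin j → V)).filter (fun t => ∀ i, p (t i))) =
      Fintype.piFinset (fun _ : Fin j => (univ : Finset V).filter p) := by
    ext t
    simp [Fintype.mem_piFinset]
  rw [this, Fintype.card_piFinset]
  simp

theorem t_S3 (hR : S_RED) (hI : S_INN3) : S_S3 := by
  intro j hj γ hγ hγ4
  obtain ⟨ρ, hρ, hI⟩ := hI j hj γ hγ hγ4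
  refine ⟨ρ, hρ, ?_⟩
  intro V _ _ w hw hs
  have hN : (0 : ℝ) < (Fintype.card V : ℝ) := by
    exact_mod_cast Fintype.card_pos
  set μ : ℝ := (∑ v, w v) / (Fintype.card V : ℝ) with hμd
  have hμ : ∑ v, w v = μ * (Fintype.card V : ℝ) := by
    rw [hμd]; field_simp
  have hμ1 : μ ≤ 1 := by
    rw [hμd, div_le_one hN]; exact hs
  obtain ⟨x, y, q, hL, hle⟩ := hR V w μ hμ j
    (fun t => (if ∑ i, w (t i) < (j : ℝ) + 1 then (1 : ℝ) else 0) -
      ρ * (if ∀ i, γ ≤ w (t i) ∧ w (t i) ≤ (j : ℝ) + 1 - γ then (1 : ℝ) else 0))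
  have h2 := hI (fun i => w (x i)) (fun i => w (y i)) q μ hμ1 (fun i => hw _) hL
  simp only [ch_eq] at hle
  rw [Finset.sum_sub_distrib, ← Finset.mul_sum,
    count_all j (fun v => γ ≤ w v ∧ w v ≤ (j : ℝ) + 1 - γ)] at hle
  have h3 : ∑ A : Finset (Fin j), BW q A *
      ((if ∑ i, ch (fun i => w (x i)) (fun i => w (y i)) A i < (j : ℝ) + 1 then (1 : ℝ) else 0) -
        ρ * (if ∀ i, γ ≤ ch (fun i => w (x i)) (fun i => w (y i)) A i ∧
          ch (fun i => w (x i)) (fun i => w (y i)) A i ≤ (j : ℝ) + 1 - γ then (1 : ℝ) else 0)) =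
      (∑ A : Finset (Fin j), BW q A *
        (if ∑ i, ch (fun i => w (x i)) (fun i => w (y i)) A i < (j : ℝ) + 1 then (1 : ℝ) else 0)) -
      ρ * ∑ A : Finset (Fin j), BW q A *
        (if ∀ i, γ ≤ ch (fun i => w (x i)) (fun i => w (y i)) A i ∧
          ch (fun i => w (x i)) (fun i => w (y i)) A i ≤ (j : ℝ) + 1 - γ then (1 : ℝ) else 0) := by
    rw [Finset.mul_sum, ← Finset.sum_sub_distrib]
    refine Finset.sum_congr rfl fun A _ => ?_
    ring
  have h4 : (1 - 1 / ((j : ℝ) + 1)) ^ j ≤ ∑ A : Finset (Fin j), BW q A *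
      ((if ∑ i, ch (fun i => w (x i)) (fun i => w (y i)) A i < (j : ℝ) + 1 then (1 : ℝ) else 0) -
        ρ * (if ∀ i, γ ≤ ch (fun i => w (x i)) (fun i => w (y i)) A i ∧
          ch (fun i => w (x i)) (fun i => w (y i)) A i ≤ (j : ℝ) + 1 - γ then (1 : ℝ) else 0)) := by
    rw [h3]; linarith
  have h5 := mul_le_mul_of_nonneg_right h4 (show (0 : ℝ) ≤ (Fintype.card V : ℝ) ^ j by positivity)
  have h6 := h5.trans hle
  unfold NN
  linarith

end Pool.Agent.W738.EM.S2
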